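import Pool.Agent.helper62.VN.SpecG

/-!
# Row vne:GLP (MP_07c750_an): Lipschitz bounds for the data of the potential
-/

set_option autoImplicit false

open scoped MatrixGroups ContDiff Topology UpperHalfPlane
open UpperHalfPlane MeasureTheory Filter Set

namespace Pool.Agent.VNE

open Pool.Agent.RS Pool.Agent.VQE
open Pool.Agent.VQ (Dyn rho kap n1 n2 hess Ug TF)
open Pool.Agent.VN (PotN OKN Kg)

theorem GLP_nm (D : SL(2, ℝ)) : |D.1 0 0 - 1| ≤ nm D ∧ |D.1 0 1| ≤ nm D ∧ |D.1 1 0| ≤ nm D ∧ |D.1 1 1 - 1| ≤ nm D ∧ 0 ≤ nm D := by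
  have h1 : |D.1 0 0 - 1| ≤ nm D := (le_max_left _ _).trans (le_max_left _ _)
  exact ⟨h1, (le_max_right _ _).trans (le_max_left _ _),
    (le_max_left _ _).trans (le_max_right _ _), (le_max_right _ _).trans (le_max_right _ _), (abs_nonneg _).trans h1⟩

theorem GLP_norm (w : Fin 2 → Fin 2 → ℝ) (r : ℝ) (hr : 0 ≤ r) (h : ∀ i j, |w i j| ≤ r) : ‖w‖ ≤ r := by
  rw [pi_norm_le_iff_of_nonneg hr]
  intro i
  rw [pi_norm_le_iff_of_nonneg hr]
  intro j
  rw [Real.norm_eq_abs]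
  exact h i j

theorem GLP_op (L : (Fin 2 → Fin 2 → ℝ) →L[ℝ] ℝ) (v : Fin 2 → Fin 2 → ℝ) (K : ℝ) (hK : ‖L‖ ≤ K) (hv : ∀ i j, |v i j| ≤ 1) : |L v| ≤ K := by
  have h2 := L.le_opNorm v
  rw [Real.norm_eq_abs] at h2
  have hK0 : 0 ≤ K := (norm_nonneg _).trans hK
  calc |L v| ≤ ‖L‖ * ‖v‖ := h2
    _ ≤ K * 1 := mul_le_mul hK (GLP_norm v 1 (by norm_num) hv) (norm_nonneg _) hK0
    _ = K := mul_one _

theorem GLP_mt (D : SL(2, ℝ)) : ‖mt D - one2‖ ≤ nm D := by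
  obtain ⟨h1, h2, h3, h4, h5⟩ := GLP_nm D
  refine GLP_norm _ _ h5 fun i j => ?_
  have e : (mt D - one2) i j = D.1 i j - one2 i j := rfl
  rw [e]
  fin_cases i <;> fin_cases j
  · show |D.1 0 0 - one2 0 0| ≤ nm D
    rw [one2, if_pos rfl]
    exact h1
  · show |D.1 0 1 - one2 0 1| ≤ nm D
    rw [one2, if_neg (by decide), sub_zero]
    exact h2
  · show |D.1 1 0 - one2 1 0| ≤ nm D
    rw [one2, if_neg (by decide), sub_zero]
    exact h3
  · show |D.1 1 1 - one2 1 1| ≤ nm D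
    rw [one2, if_pos rfl]
    exact h4

theorem GLP_ball (D : SL(2, ℝ)) (h : nm D ≤ 1 / 10) : mt D ∈ Metric.closedBall one2 (1 / 10) := by
  rw [Metric.mem_closedBall, dist_eq_norm]
  exact (GLP_mt D).trans h

theorem GLP_mt1 : mt 1 = one2 := by
  funext i j
  show (1 : Matrix (Fin 2) (Fin 2) ℝ) i j = one2 i j
  rw [Matrix.one_apply]
  rfl

theorem GLP_nm1 : nm 1 = 0 := by
  unfold nm
  simp

theorem GLP_ent (E D : SL(2, ℝ)) (i j : Fin 2) : (E * D).1 i j = E.1 i 0 * D.1 0 j + E.1 i 1 * D.1 1 j := by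
  rw [Matrix.SpecialLinearGroup.coe_mul, Matrix.mul_apply, Fin.sum_univ_two]

/-- the derivative of a function of the entries along a curve -/
theorem GLP_curve (G : (Fin 2 → Fin 2 → ℝ) → ℝ) (c : ℝ → SL(2, ℝ)) (w : Fin 2 → Fin 2 → ℝ) (hc0 : c 0 = 1)
    (hc : ∀ i j, HasDerivAt (fun s => (c s).1 i j) (w i j) 0) (E : SL(2, ℝ)) (hG : DifferentiableAt ℝ G (mt E)) :
    HasDerivAt (fun s => G (mt (E * c s))) (fderiv ℝ G (mt E) (fun i j => E.1 i 0 * w 0 j + E.1 i 1 * w 1 j)) 0 := by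
  have h1 : HasDerivAt (fun s => mt (E * c s)) (fun i j => E.1 i 0 * w 0 j + E.1 i 1 * w 1 j) 0 := by
    rw [hasDerivAt_pi]
    intro i
    rw [hasDerivAt_pi]
    intro j
    have h2 : (fun s => mt (E * c s) i j) = fun s => E.1 i 0 * (c s).1 0 j + E.1 i 1 * (c s).1 1 j := by
      funext s
      exact GLP_ent _ _ _ _
    rw [h2]
    exact ((hc 0 j).const_mul _).add ((hc 1 j).const_mul _)
  have h2 : HasFDerivAt G (fderiv ℝ G (mt E)) (mt (E * c 0)) := by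
    rw [hc0, mul_one]
    exact hG.hasFDerivAt
  exact h2.comp_hasDerivAt 0 h1

theorem GLP_ev (c : ℝ → SL(2, ℝ)) (w : Fin 2 → Fin 2 → ℝ) (hc0 : c 0 = 1)
    (hc : ∀ i j, HasDerivAt (fun s => (c s).1 i j) (w i j) 0) (E : SL(2, ℝ)) (hE : nm E ≤ 1 / 100) :
    ∀ᶠ s in 𝓝 (0 : ℝ), nm (E * c s) ≤ 1 / 10 := by
  have hent : ∀ i j, ContinuousAt (fun s => (E * c s).1 i j) 0 := by
    intro i j
    have h2 : (fun s => (E * c s).1 i j) = fun s => E.1 i 0 * (c s).1 0 j + E.1 i 1 * (c s).1 1 j := by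
      funext s
      exact GLP_ent _ _ _ _
    rw [h2]
    exact (((hc 0 j).const_mul _).add ((hc 1 j).const_mul _)).continuousAt
  have hcont : ContinuousAt (fun s => nm (E * c s)) 0 := by
    show ContinuousAt (fun s => max (max |(E * c s).1 0 0 - 1| |(E * c s).1 0 1|) (max |(E * c s).1 1 0| |(E * c s).1 1 1 - 1|)) 0
    exact ((((hent 0 0).sub continuousAt_const).abs).max (hent 0 1).abs).max ((hent 1 0).abs.max ((hent 1 1).sub continuousAt_const).abs)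
  have h0 : nm (E * c 0) < 1 / 10 := by
    rw [hc0, mul_one]
    exact lt_of_le_of_lt hE (by norm_num)
  exact (hcont.eventually_lt continuousAt_const h0).mono fun s hs => hs.le

/-- the derivative at the base point `g E` -/
theorem GLP_tr (G G' : (Fin 2 → Fin 2 → ℝ) → ℝ) (K : ℝ) (hG : CB (Metric.closedBall one2 (1 / 10)) K G)
    (hG' : CB (Metric.closedBall one2 (1 / 10)) K G') (n : SL(2, ℝ) → ℝ) (g E : SL(2, ℝ)) (hE : nm E ≤ 1 / 100)
    (h : ∀ D : SL(2, ℝ), nm D ≤ 1 / 10 → n (g * D) = G (mt D)) (h' : ∀ D : SL(2, ℝ), nm D ≤ 1 / 10 → n (g * E * D) = G' (mt D))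
    (c : ℝ → SL(2, ℝ)) (w : Fin 2 → Fin 2 → ℝ) (hc0 : c 0 = 1)
    (hc : ∀ i j, HasDerivAt (fun s => (c s).1 i j) (w i j) 0) (hw : ∀ i j, |w i j| ≤ 1 / 2) :
    |fderiv ℝ G' one2 w - fderiv ℝ G one2 w| ≤ 2 * K * nm E := by
  obtain ⟨e1, e2, e3, e4, e5⟩ := GLP_nm E
  have hb1 : one2 ∈ Metric.closedBall one2 (1 / 10) := Metric.mem_closedBall_self (by norm_num)
  have hbE : mt E ∈ Metric.closedBall one2 (1 / 10) := GLP_ball E (hE.trans (by norm_num))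
  have hK : 0 ≤ K := (norm_nonneg _).trans (hG.b0 one2 hb1)
  have d1 := GLP_curve G c w hc0 hc E (hG.diff _ hbE)
  have d2 := GLP_curve G' c w hc0 hc 1 (by rw [GLP_mt1]; exact hG'.diff _ hb1)
  have hw1 : (fun i j => (1 : SL(2, ℝ)).1 i 0 * w 0 j + (1 : SL(2, ℝ)).1 i 1 * w 1 j) = w := by
    funext i j
    fin_cases i <;> simp
  rw [hw1, GLP_mt1] at d2
  have hev : (fun s => G' (mt (1 * c s))) =ᶠ[𝓝 0] fun s => G (mt (E * c s)) := by
    filter_upwards [GLP_ev c w hc0 hc E hE, GLP_ev c w hc0 hc 1 (by rw [GLP_nm1]; norm_num)] with s h1 h2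
    rw [← h' _ h2, ← h _ h1, one_mul, mul_assoc]
  have heq : fderiv ℝ G' one2 w = fderiv ℝ G (mt E) (fun i j => E.1 i 0 * w 0 j + E.1 i 1 * w 1 j) :=
    d2.unique (d1.congr_of_eventuallyEq hev)
  rw [heq]
  have hprod : ∀ x y X Y : ℝ, |x| ≤ X → |y| ≤ Y → |x * y| ≤ X * Y := by
    intro x y X Y hx hy
    rw [abs_mul]
    exact mul_le_mul hx hy (abs_nonneg _) ((abs_nonneg _).trans hx)
  have n1 : ‖(fun i j => E.1 i 0 * w 0 j + E.1 i 1 * w 1 j) - w‖ ≤ nm E := by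
    refine GLP_norm _ _ e5 fun i j => ?_
    have hj0 := hw 0 j
    have hj1 := hw 1 j
    fin_cases i
    · show |E.1 0 0 * w 0 j + E.1 0 1 * w 1 j - w 0 j| ≤ nm E
      have h1 : E.1 0 0 * w 0 j + E.1 0 1 * w 1 j - w 0 j = (E.1 0 0 - 1) * w 0 j + E.1 0 1 * w 1 j := by ring
      rw [h1]
      refine (abs_add_le _ _).trans ?_
      linarith [hprod _ _ _ _ e1 hj0, hprod _ _ _ _ e2 hj1]
    · show |E.1 1 0 * w 0 j + E.1 1 1 * w 1 j - w 1 j| ≤ nm E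
      have h1 : E.1 1 0 * w 0 j + E.1 1 1 * w 1 j - w 1 j = E.1 1 0 * w 0 j + (E.1 1 1 - 1) * w 1 j := by ring
      rw [h1]
      refine (abs_add_le _ _).trans ?_
      linarith [hprod _ _ _ _ e3 hj0, hprod _ _ _ _ e4 hj1]
  have n2 : ‖w‖ ≤ 1 / 2 := GLP_norm _ _ (by norm_num) hw
  have n3 : ‖(fun i j => E.1 i 0 * w 0 j + E.1 i 1 * w 1 j)‖ ≤ 1 := by
    have h1 := norm_sub_norm_le (fun i j => E.1 i 0 * w 0 j + E.1 i 1 * w 1 j) w
    linarith
  generalize (fun i j => E.1 i 0 * w 0 j + E.1 i 1 * w 1 j) = v at n1 n3 ⊢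
  have h1 : fderiv ℝ G (mt E) v - fderiv ℝ G one2 w = (fderiv ℝ G (mt E) - fderiv ℝ G one2) v + fderiv ℝ G one2 (v - w) := by
    rw [map_sub]
    show _ = (fderiv ℝ G (mt E) v - fderiv ℝ G one2 v) + _
    ring
  rw [h1]
  have t1 : |(fderiv ℝ G (mt E) - fderiv ℝ G one2) v| ≤ K * nm E := by
    have h2 := (fderiv ℝ G (mt E) - fderiv ℝ G one2).le_opNorm v
    rw [Real.norm_eq_abs] at h2
    have h3 := hG.b2 _ hbE _ hb1
    calc _ ≤ ‖fderiv ℝ G (mt E) - fderiv ℝ G one2‖ * ‖v‖ := h2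
      _ ≤ ‖fderiv ℝ G (mt E) - fderiv ℝ G one2‖ * 1 := mul_le_mul_of_nonneg_left n3 (norm_nonneg _)
      _ = ‖fderiv ℝ G (mt E) - fderiv ℝ G one2‖ := mul_one _
      _ ≤ K * ‖mt E - one2‖ := h3
      _ ≤ K * nm E := mul_le_mul_of_nonneg_left (GLP_mt E) hK
  have t2 : |fderiv ℝ G one2 (v - w)| ≤ K * nm E := by
    have h2 := (fderiv ℝ G one2).le_opNorm (v - w)
    rw [Real.norm_eq_abs] at h2
    exact h2.trans (mul_le_mul (hG.b1 _ hb1) n1 (norm_nonneg _) hK)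
  refine (abs_add_le _ _).trans ?_
  linarith

/-- Lipschitz bound at `1` -/
theorem GLP_lip (G : (Fin 2 → Fin 2 → ℝ) → ℝ) (K : ℝ) (hK : 1 ≤ K) (hG : CB (Metric.closedBall one2 (1 / 10)) K G)
    (n : SL(2, ℝ) → ℝ) (g E : SL(2, ℝ)) (h : ∀ D : SL(2, ℝ), nm D ≤ 1 / 10 → n (g * D) = G (mt D)) (hb : ∀ g, |n g| ≤ K) :
    |n (g * E) - n g| ≤ 20 * K * nm E := by
  obtain ⟨-, -, -, -, e5⟩ := GLP_nm E
  by_cases hE : nm E ≤ 1 / 10
  · have h1 : n (g * E) = G (mt E) := h E hE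
    have h2 : n g = G one2 := by
      have := h 1 (by rw [GLP_nm1]; norm_num)
      rwa [mul_one, GLP_mt1] at this
    rw [h1, h2]
    have hb1 : one2 ∈ Metric.closedBall one2 (1 / 10) := Metric.mem_closedBall_self (by norm_num)
    have h3 := (convex_closedBall one2 (1 / 10)).norm_image_sub_le_of_norm_fderiv_le (𝕜 := ℝ) hG.diff hG.b1 hb1 (GLP_ball E hE)
    rw [Real.norm_eq_abs] at h3
    refine h3.trans ?_
    calc K * ‖mt E - one2‖ ≤ K * nm E := mul_le_mul_of_nonneg_left (GLP_mt E) (by linarith)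
      _ ≤ 20 * K * nm E := by nlinarith
  · have h1 := abs_le.1 (hb (g * E))
    have h2 := abs_le.1 (hb g)
    have h3 : 1 / 10 ≤ nm E := (not_le.1 hE).le
    have h4 : 20 * K * (1 / 10) ≤ 20 * K * nm E := mul_le_mul_of_nonneg_left h3 (by linarith)
    rw [abs_le]
    constructor <;> linarith [h1.1, h1.2, h2.1, h2.2]

theorem GLP_c1 : ∀ i j, HasDerivAt (fun s => (aM s).1 i j) ((!![1 / 2, 0; 0, -(1 / 2)] : Matrix (Fin 2) (Fin 2) ℝ) i j) 0 := by
  have h1 : HasDerivAt (fun s : ℝ => Real.exp (s / 2)) (1 / 2) 0 := by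
    have := ((hasDerivAt_id (0 : ℝ)).div_const 2).exp
    simpa using this
  have h2 : HasDerivAt (fun s : ℝ => Real.exp (-(s / 2))) (-(1 / 2)) 0 := by
    have := ((hasDerivAt_id (0 : ℝ)).div_const 2).neg.exp
    simpa using this
  intro i j
  fin_cases i <;> fin_cases j
  · exact h1
  · exact hasDerivAt_const _ _
  · exact hasDerivAt_const _ _
  · exact h2

theorem GLP_c2 : ∀ i j, HasDerivAt (fun s => (nM (s / 2) * lM (s / 2)).1 i j) ((!![0, 1 / 2; 1 / 2, 0] : Matrix (Fin 2) (Fin 2) ℝ) i j) 0 := by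
  have e : ∀ s : ℝ, (nM (s / 2) * lM (s / 2)).1 = !![1 + s / 2 * (s / 2), s / 2; s / 2, 1] := by
    intro s
    rw [Matrix.SpecialLinearGroup.coe_mul]
    show !![1, s / 2; 0, 1] * !![1, 0; s / 2, 1] = _
    rw [Matrix.mul_fin_two]
    simp
  have hid : HasDerivAt (fun s : ℝ => s / 2) (1 / 2) 0 := (hasDerivAt_id (0 : ℝ)).div_const 2
  have hsq : HasDerivAt (fun s : ℝ => 1 + s / 2 * (s / 2)) 0 0 := by
    have := (hid.mul hid).const_add 1
    simpa using this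
  intro i j
  simp only [e]
  fin_cases i <;> fin_cases j
  · exact hsq
  · exact hid
  · exact hid
  · exact hasDerivAt_const _ _

theorem GLP_c20 : nM ((0 : ℝ) / 2) * lM ((0 : ℝ) / 2) = 1 := by
  ext i j
  have h := GLP_ent (nM ((0 : ℝ) / 2)) (lM ((0 : ℝ) / 2)) i j
  refine h.trans ?_
  fin_cases i <;> fin_cases j <;> simp [nM, lM]

theorem GLP_proof (h1 : VQE.NMB_stmt) (h2 : GQC_stmt) (h3 : GDV_stmt) : GLP_stmt := by
  have _ := h1
  intro k hk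
  obtain ⟨K, hK, hQ⟩ := h2 k hk
  refine ⟨200 * K, by linarith, fun Γ B U hU g E => ?_⟩
  have hK0 : 0 < K := by linarith
  have hb1 : one2 ∈ Metric.closedBall one2 (1 / 10) := Metric.mem_closedBall_self (by norm_num)
  have hn1 : nm 1 ≤ 1 / 10 := by rw [GLP_nm1]; norm_num
  -- the bounds at every point
  have hall : ∀ g : SL(2, ℝ), 1 / K ≤ rho U 0 g ∧ |rho U 0 g| ≤ K ∧ |n1 U g| ≤ K ∧ |n2 U g| ≤ K ∧ |hess U g 0 0| ≤ K ∧ |hess U g 1 1| ≤ K := by
    intro g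
    obtain ⟨R, N1, N2, hR, hN1, hN2, hD⟩ := hQ Γ B U hU g
    obtain ⟨a1, a2, a3, a4⟩ := hD 1 hn1
    rw [mul_one] at a1 a2 a3 a4
    rw [GLP_mt1] at a2 a3 a4
    have hU0 : 0 < U (g • I) := by
      have := hU.lo (g • I)
      linarith
    have hd := h3 U g R N1 N2 hU.smooth hU0 (hR.diff _ hb1) (hN1.diff _ hb1) (hN2.diff _ hb1) fun D hD' => (hD D hD').2
    refine ⟨a1, ?_, ?_, ?_, ?_, ?_⟩
    · rw [a2]
      exact hR.b0 _ hb1
    · rw [a3]
      exact hN1.b0 _ hb1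
    · rw [a4]
      exact hN2.b0 _ hb1
    · have h4 := (hd 1 0 0).2.1
      have h5 : hess U g 0 0 = fderiv ℝ N1 one2 !![1 / 2, 0; 0, -(1 / 2)] := by
        rw [h4]
        ring
      rw [h5]
      refine GLP_op _ _ K (hN1.b1 _ hb1) fun i j => ?_
      fin_cases i <;> fin_cases j <;> simp <;> norm_num
    · have h4 := (hd 0 (1 / 2) (1 / 2)).2.2
      have h5 : hess U g 1 1 = -fderiv ℝ N2 one2 !![0, 1 / 2; 1 / 2, 0] := by
        have h6 : (!![(0 : ℝ) / 2, 1 / 2; 1 / 2, -(0 / 2)] : Matrix (Fin 2) (Fin 2) ℝ) = !![0, 1 / 2; 1 / 2, 0] := by simp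
        rw [h6] at h4
        rw [h4]
        ring
      rw [h5, abs_neg]
      refine GLP_op _ _ K (hN2.b1 _ hb1) fun i j => ?_
      fin_cases i <;> fin_cases j <;> simp <;> norm_num
  obtain ⟨R, N1, N2, hR, hN1, hN2, hD⟩ := hQ Γ B U hU g
  obtain ⟨R', N1', N2', hR', hN1', hN2', hD'⟩ := hQ Γ B U hU (g * E)
  obtain ⟨-, -, -, -, e5⟩ := GLP_nm E
  have hU0 : ∀ z, 0 < U z := fun z => by
    have := hU.lo z
    linarith
  have hd := h3 U g R N1 N2 hU.smooth (hU0 _) (hR.diff _ hb1) (hN1.diff _ hb1) (hN2.diff _ hb1) fun D hh => (hD D hh).2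
  have hd' := h3 U (g * E) R' N1' N2' hU.smooth (hU0 _) (hR'.diff _ hb1) (hN1'.diff _ hb1) (hN2'.diff _ hb1) fun D hh => (hD' D hh).2
  obtain ⟨b1, b2, b3, b4, b5, b6⟩ := hall g
  obtain ⟨c1, c2, c3, c4, c5, c6⟩ := hall (g * E)
  have hKK : K ≤ 200 * K := by linarith
  have hmon : 20 * K * nm E ≤ 200 * K * nm E := mul_le_mul_of_nonneg_right (by linarith) e5
  have hmon2 : 2 * K * nm E ≤ 200 * K * nm E := mul_le_mul_of_nonneg_right (by linarith) e5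
  have hbig : ∀ x y : ℝ, |x| ≤ K → |y| ≤ K → 1 / 100 ≤ nm E → |x - y| ≤ 200 * K * nm E := by
    intro x y hx hy hE
    have h4 : 200 * K * (1 / 100) ≤ 200 * K * nm E := mul_le_mul_of_nonneg_left hE (by linarith)
    have hx := abs_le.1 hx
    have hy := abs_le.1 hy
    rw [abs_le]
    constructor <;> linarith [hx.1, hx.2, hy.1, hy.2]
  refine ⟨?_, (le_abs_self _).trans (b2.trans hKK), b3.trans hKK, b4.trans hKK, b5.trans hKK, b6.trans hKK, ?_, ?_, ?_, ?_, ?_⟩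
  · refine le_trans ?_ b1
    exact one_div_le_one_div_of_le hK0 hKK
  · exact (GLP_lip R K hK hR (rho U 0) g E (fun D hh => (hD D hh).2.1) fun g => (hall g).2.1).trans hmon
  · exact (GLP_lip N1 K hK hN1 (n1 U) g E (fun D hh => (hD D hh).2.2.1) fun g => (hall g).2.2.1).trans hmon
  · exact (GLP_lip N2 K hK hN2 (n2 U) g E (fun D hh => (hD D hh).2.2.2) fun g => (hall g).2.2.2.1).trans hmon
  · by_cases hE : nm E ≤ 1 / 100
    · have h4 := (hd 1 0 0).2.1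
      have h4' := (hd' 1 0 0).2.1
      have h5 : hess U g 0 0 = fderiv ℝ N1 one2 !![1 / 2, 0; 0, -(1 / 2)] := by
        rw [h4]
        ring
      have h5' : hess U (g * E) 0 0 = fderiv ℝ N1' one2 !![1 / 2, 0; 0, -(1 / 2)] := by
        rw [h4']
        ring
      rw [h5, h5']
      refine le_trans ?_ hmon2
      refine GLP_tr N1 N1' K hN1 hN1' (n1 U) g E hE (fun D hh => (hD D hh).2.2.1) (fun D hh => (hD' D hh).2.2.1) (fun s => aM s) _ ?_ GLP_c1 ?_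
      · ext i j
        fin_cases i <;> fin_cases j <;> simp [aM]
      · intro i j
        fin_cases i <;> fin_cases j <;> simp
    · exact hbig _ _ c5 b5 (not_le.1 hE).le
  · by_cases hE : nm E ≤ 1 / 100
    · have h4 := (hd 0 (1 / 2) (1 / 2)).2.2
      have h4' := (hd' 0 (1 / 2) (1 / 2)).2.2
      have h6 : (!![(0 : ℝ) / 2, 1 / 2; 1 / 2, -(0 / 2)] : Matrix (Fin 2) (Fin 2) ℝ) = !![0, 1 / 2; 1 / 2, 0] := by simp
      rw [h6] at h4 h4'
      have h5 : hess U g 1 1 = -fderiv ℝ N2 one2 !![0, 1 / 2; 1 / 2, 0] := by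
        rw [h4]
        ring
      have h5' : hess U (g * E) 1 1 = -fderiv ℝ N2' one2 !![0, 1 / 2; 1 / 2, 0] := by
        rw [h4']
        ring
      rw [h5, h5', neg_sub_neg, abs_sub_comm]
      refine le_trans ?_ hmon2
      refine GLP_tr N2 N2' K hN2 hN2' (n2 U) g E hE (fun D hh => (hD D hh).2.2.2) (fun D hh => (hD' D hh).2.2.2) (fun s => nM (s / 2) * lM (s / 2)) _ ?_ GLP_c2 ?_
      · exact GLP_c20
      · intro i j
        fin_cases i <;> fin_cases j <;> simp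
    · exact hbig _ _ c6 b6 (not_le.1 hE).le

end Pool.Agent.VNE
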